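import Pool.Agent.H95R2.Leh.FamLeh

set_option autoImplicit false

/-! The states of the solutions of `φ(n) ∣ n + 1` form a family. -/

namespace Pool.Agent.TH836.Leh

open Finset Pool.Agent.H95R2.Leh

/-- integers `n > 2` with `φ(n) ∣ n + 1` -/
def LehP (n : ℕ) : Prop := 2 < n ∧ Nat.totient n ∣ n + 1

/-- the family of states of the solutions in `(x/2, x]` with quotient `k` and at most `R` prime
factors; the number itself is a state with formal next prime `2 * x` -/
def StP (x k : ℕ) (R : ℝ) (D q : ℕ) : Prop :=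
  ∃ n : ℕ, LehP n ∧ x < 2 * n ∧ n ≤ x ∧ n + 1 = k * Nat.totient n ∧
    (n.primeFactors.card : ℝ) ≤ R ∧
    ((q.Prime ∧ q ∣ n ∧ D = seg n q) ∨ (q = 2 * x ∧ D = n))

theorem lehP_basic {n : ℕ} (h : LehP n) :
    Squarefree n ∧ Odd n ∧ Nat.Coprime n (Nat.totient n) := by
  obtain ⟨h1, h3⟩ := h
  have hco : Nat.Coprime n (n + 1) := by simp
  refine ⟨?_, ?_, hco.coprime_dvd_right h3⟩
  · rw [Nat.squarefree_iff_prime_squarefree]
    intro p hp hpp
    have e1 : p ∣ Nat.totient n := by
      have h4 : Nat.totient (p ^ 2) ∣ Nat.totient n :=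
        Nat.totient_dvd_of_dvd (by rw [pow_two]; exact hpp)
      rw [Nat.totient_prime_pow hp (by norm_num)] at h4
      refine dvd_trans ?_ h4
      exact ⟨p - 1, by simp⟩
    have e2 : p ∣ n := dvd_trans (dvd_mul_right p p) hpp
    exact Nat.Prime.not_coprime_iff_dvd.2 ⟨p, hp, e2, dvd_trans e1 h3⟩ hco
  · by_contra hodd
    rw [Nat.not_odd_iff_even] at hodd
    have h6 : Even (Nat.totient n) := Nat.totient_even h1
    have h7 : 2 ∣ n + 1 := dvd_trans h6.two_dvd h3
    have h8 : 2 ∣ n := hodd.two_dvd
    exact Nat.Prime.not_coprime_iff_dvd.2 ⟨2, Nat.prime_two, h8, h7⟩ hco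

theorem lehP_k {n : ℕ} (h : LehP n) : ∃ k : ℕ, 2 ≤ k ∧ n + 1 = k * Nat.totient n ∧
    k ≤ n.primeFactors.card + 2 := by
  obtain ⟨h1, k, hk⟩ := h
  have htot : 0 < Nat.totient n := Nat.totient_pos.2 (by omega)
  have hlt : Nat.totient n < n := Nat.totient_lt n (by omega)
  refine ⟨k, ?_, by rw [hk, mul_comm], ?_⟩
  · by_contra hlt'
    have h3 : k = 0 ∨ k = 1 := by omega
    rcases h3 with h3 | h3
    · rw [h3, mul_zero] at hk
      omega
    · rw [h3, mul_one] at hk
      omega
  · have h4 := le_omega_mul_totient n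
    have h5 : Nat.totient n * k ≤ Nat.totient n * (n.primeFactors.card + 2) := by
      rw [← hk]
      have h6 : Nat.totient n * (n.primeFactors.card + 2) =
          (n.primeFactors.card + 1) * Nat.totient n + Nat.totient n := by ring
      rw [h6]
      omega
    exact Nat.le_of_mul_le_mul_left h5 htot

theorem fam_lehP (x k : ℕ) (R : ℝ) (hk : 2 ≤ k) (hR : 1 ≤ R) : Fam k R (StP x k R) := by
  refine ⟨by omega, hR, ?_, ?_, ?_, ?_, ?_, ?_⟩
  · rintro D q ⟨n, hn, -, -, -, -, h⟩
    obtain ⟨hsq, -, -⟩ := lehP_basic hn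
    rcases h with ⟨-, -, rfl⟩ | ⟨-, rfl⟩
    · exact hsq.squarefree_of_dvd (seg_dvd n q)
    · exact hsq
  · rintro D q ⟨n, hn, -, -, -, -, h⟩
    obtain ⟨-, -, hco⟩ := lehP_basic hn
    rcases h with ⟨-, -, rfl⟩ | ⟨-, rfl⟩
    · exact (hco.coprime_dvd_left (seg_dvd n q)).coprime_dvd_right
        (Nat.totient_dvd_of_dvd (seg_dvd n q))
    · exact hco
  · rintro D q ⟨n, hn, -, -, hkn, -, h⟩ hD
    obtain ⟨-, hodd, hco⟩ := lehP_basic hn
    have hDn : D ∣ n := by
      rcases h with ⟨-, -, rfl⟩ | ⟨-, rfl⟩
      · exact seg_dvd n q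
      · exact dvd_rfl
    have hcoD : Nat.Coprime D (Nat.totient D) :=
      (hco.coprime_dvd_left hDn).coprime_dvd_right (Nat.totient_dvd_of_dvd hDn)
    have h1 : Nat.totient D ∣ D := ⟨k, by rw [mul_comm]; exact hD.symm⟩
    have h2 : Nat.totient D = 1 := Nat.Coprime.eq_one_of_dvd hcoD.symm h1
    have hD1 : D = 1 := by
      rcases (Nat.totient_eq_one_iff).1 h2 with h3 | h3
      · exact h3
      · exfalso
        rw [h3] at hDn
        rw [← Nat.not_even_iff_odd] at hodd
        exact hodd (even_iff_two_dvd.2 hDn)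
    rw [h2, hD1, mul_one] at hD
    omega
  · rintro D q ⟨n, hn, hx1, hx2, hkn, hcard, h⟩ hq
    obtain ⟨hsq, hodd, hco⟩ := lehP_basic hn
    have hn1 := hn.1
    rcases h with ⟨hqp, hqn, rfl⟩ | ⟨rfl, rfl⟩
    · set D := seg n q with hD
      set M := upp n q with hM
      have hDM : D * M = n := seg_mul_upp' hsq
      have hcop : Nat.Coprime D M := seg_upp_coprime n q
      have hphi : Nat.totient n = Nat.totient D * Nat.totient M := by
        rw [← hDM, Nat.totient_mul hcop]
      have hMpf : M.primeFactors = n.primeFactors.filter (fun p => q ≤ p) :=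
        upp_primeFactors n q
      have hMr : (Nat.totient M : ℝ) = M * ∏ p ∈ M.primeFactors, (1 - ((p : ℝ))⁻¹) := by
        have := Nat.totient_eq_mul_prod_factors M
        have h2 : ((Nat.totient M : ℚ) : ℝ) =
          (((M : ℚ) * ∏ p ∈ M.primeFactors, (1 - ((p : ℚ))⁻¹) : ℚ) : ℝ) := by
          rw [this]
        push_cast at h2
        exact h2
      have hq1 : (1 : ℝ) ≤ q := by exact_mod_cast hqp.one_lt.le
      obtain ⟨p1, p2, p3⟩ := prod_ge M.primeFactors q hq1 (by
        intro p hp
        rw [hMpf, Finset.mem_filter] at hp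
        exact_mod_cast hp.2)
      have hcM : (M.primeFactors.card : ℝ) ≤ R := by
        refine le_trans ?_ hcard
        rw [hMpf]
        exact_mod_cast Finset.card_le_card (Finset.filter_subset _ _)
      have hD0 : 0 < D := Nat.pos_of_ne_zero (by rintro h0; rw [h0, zero_mul] at hDM; omega)
      have hM0 : 0 < M := Nat.pos_of_ne_zero (by rintro h0; rw [h0, mul_zero] at hDM; omega)
      have hphM : 0 < Nat.totient M := Nat.totient_pos.2 hM0
      have hM1 : 1 < M := by
        have : q ∈ M.primeFactors := by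
          rw [hMpf, Finset.mem_filter]
          exact ⟨Nat.mem_primeFactors.2 ⟨hqp, hqn, by omega⟩, le_refl q⟩
        have h3 := Nat.le_of_dvd hM0 (Nat.dvd_of_mem_primeFactors this)
        have := hqp.one_lt
        omega
      have hlt : Nat.totient M < M := Nat.totient_lt M hM1
      -- the key identity
      have hkey : (k : ℝ) * Nat.totient D * Nat.totient M = D * M + 1 := by
        have h4 : n + 1 = k * (Nat.totient D * Nat.totient M) := by rw [← hphi]; exact hkn
        have h5 : (n : ℝ) + 1 = k * (Nat.totient D * Nat.totient M) := by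
          exact_mod_cast h4
        have h7 : (n : ℝ) = D * M := by rw [← hDM]; push_cast; ring
        rw [h7] at h5
        linarith
      have hq0 : (0 : ℝ) < q := by linarith
      have hRq : R / q ≤ 1 / 16 := by
        rw [div_le_div_iff₀ hq0 (by norm_num)]
        linarith
      have hMR : (0 : ℝ) < M := by exact_mod_cast hM0
      have hDR : (0 : ℝ) < D := by exact_mod_cast hD0
      have hpMR : (0 : ℝ) < Nat.totient M := by exact_mod_cast hphM
      have hlow : (M : ℝ) * (1 - R / q) ≤ Nat.totient M := by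
        rw [hMr]
        apply mul_le_mul_of_nonneg_left _ hMR.le
        have : (M.primeFactors.card : ℝ) / q ≤ R / q := div_le_div_of_nonneg_right hcM hq0.le
        linarith
      -- M - φ(M) ≤ M R / q
      have hdiff : (M : ℝ) - Nat.totient M ≤ M * (R / q) := by linarith
      have hge1 : (1 : ℝ) ≤ (M : ℝ) - Nat.totient M := by
        have : Nat.totient M + 1 ≤ M := hlt
        have h8 : ((Nat.totient M + 1 : ℕ) : ℝ) ≤ M := by exact_mod_cast this
        push_cast at h8
        linarith
      have hD1 : (1 : ℝ) ≤ D := by exact_mod_cast hD0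
      have hval : ((k : ℝ) * Nat.totient D - D) * Nat.totient M
          = D * ((M : ℝ) - Nat.totient M) + 1 := by
        rw [sub_mul, hkey]; ring
      have hnn : 0 ≤ (k : ℝ) * Nat.totient D - D := by
        by_contra hneg
        push Not at hneg
        have h9 : ((k : ℝ) * Nat.totient D - D) * Nat.totient M < 0 :=
          mul_neg_of_neg_of_pos hneg hpMR
        have h10 : (1 : ℝ) ≤ D * ((M : ℝ) - Nat.totient M) := by nlinarith
        linarith
      rw [abs_of_nonneg hnn]
      have hqM : (q : ℝ) ≤ M := by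
        have : q ∈ M.primeFactors := by
          rw [hMpf, Finset.mem_filter]
          exact ⟨Nat.mem_primeFactors.2 ⟨hqp, hqn, by omega⟩, le_refl q⟩
        exact_mod_cast Nat.le_of_dvd hM0 (Nat.dvd_of_mem_primeFactors this)
      have hone : (1 : ℝ) ≤ D * (M * (R / q)) := by
        have h1 : (1 : ℝ) ≤ M * (R / q) := by
          rw [mul_div_assoc', le_div_iff₀ hq0]
          nlinarith
        nlinarith
      have hup : ((k : ℝ) * Nat.totient D - D) * Nat.totient M ≤ 2 * (D * (M * (R / q))) := by
        rw [hval]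
        have : (D : ℝ) * ((M : ℝ) - Nat.totient M) ≤ D * (M * (R / q)) :=
          mul_le_mul_of_nonneg_left hdiff hDR.le
        linarith
      have hMlow : (M : ℝ) / 2 ≤ Nat.totient M := by nlinarith
      have h11 : ((k : ℝ) * Nat.totient D - D) * (M / 2) ≤ 2 * (D * (M * (R / q))) :=
        le_trans (mul_le_mul_of_nonneg_left hMlow hnn) hup
      have h12 : ((k : ℝ) * Nat.totient D - D) ≤ 4 * D * (R / q) := by
        have h13 : ((k : ℝ) * Nat.totient D - D) * M ≤ (4 * D * (R / q)) * M := by linarith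
        exact le_of_mul_le_mul_right h13 hMR
      calc ((k : ℝ) * Nat.totient D - D) * q ≤ (4 * D * (R / q)) * q :=
            mul_le_mul_of_nonneg_right h12 hq0.le
        _ = 4 * R * D := by field_simp
        _ ≤ 8 * R * D := by nlinarith
    · have h1 : (k : ℝ) * Nat.totient D = D + 1 := by
        have h6 : ((D + 1 : ℕ) : ℝ) = (D : ℝ) + 1 := by push_cast; ring
        rw [← h6, hkn]
        push_cast
        ring
      rw [h1]
      have h2 : |(D : ℝ) + 1 - D| = 1 := by
        rw [show (D : ℝ) + 1 - D = 1 by ring, abs_one]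
      rw [h2, one_mul]
      have h3 : ((2 * x : ℕ) : ℝ) ≤ 4 * D := by
        have : 2 * x ≤ 4 * D := by omega
        exact_mod_cast this
      have h4 : (0 : ℝ) < D := by
        have : 0 < D := by omega
        exact_mod_cast this
      nlinarith
  · rintro D q s ⟨n, hn, hx1, hx2, hkn, hcard, h⟩ hs hsD
    refine ⟨n, hn, hx1, hx2, hkn, hcard, Or.inl ⟨hs, ?_, ?_⟩⟩
    · rcases h with ⟨-, -, rfl⟩ | ⟨-, rfl⟩
      · exact dvd_trans hsD (seg_dvd n q)
      · exact hsD
    · rcases h with ⟨-, -, rfl⟩ | ⟨-, rfl⟩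
      · have hne : seg n q ≠ 0 := by
          intro h0
          have := seg_dvd n q
          rw [h0] at this
          have := Nat.eq_zero_of_zero_dvd this
          have := hn.1
          omega
        have : s ∈ (seg n q).primeFactors := Nat.mem_primeFactors.2 ⟨hs, hsD, hne⟩
        rw [seg_primeFactors, Finset.mem_filter] at this
        exact seg_seg n q s this.2.le
      · rfl
  · rintro D q p ⟨n, hn, hx1, hx2, hkn, hcard, h⟩ hp hpD
    have hn1 := hn.1
    rcases h with ⟨-, -, rfl⟩ | ⟨rfl, rfl⟩
    · have hne : seg n q ≠ 0 := by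
        intro h0
        have := seg_dvd n q
        rw [h0] at this
        have := Nat.eq_zero_of_zero_dvd this
        omega
      have : p ∈ (seg n q).primeFactors := Nat.mem_primeFactors.2 ⟨hp, hpD, hne⟩
      rw [seg_primeFactors, Finset.mem_filter] at this
      exact this.2
    · have := Nat.le_of_dvd (by omega) hpD
      omega

end Pool.Agent.TH836.Leh
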