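import Pool.Agent.H95R2.Leh.Omega

set_option autoImplicit false

/-! Lehmer numbers with many prime factors are rare, uniform version -/

namespace Pool.Agent.TH836.Leh

open Finset Pool.Agent.H95R2.Leh Pool.Agent.H95R2.Leh.Omega

open Classical in
theorem omega_unif : ∃ C : ℝ, 1 ≤ C ∧ ∀ (A : ℝ) (x : ℕ), 16 ≤ x →
    ((((Finset.Icc 1 x).filter (fun n => Leh n ∧ x < 2 * n ∧
      3 * (|A| + 5) * Real.log (Real.log x) < (n.primeFactors.card : ℝ))).card : ℕ) : ℝ) ≤
      C * Real.sqrt x / (Real.log x) ^ A := by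
  obtain ⟨Ct, hCt, htot⟩ := tot_lower
  refine ⟨819360 * Ct, by linarith, ?_⟩
  intro A x hx
  have hA : 0 ≤ |A| := abs_nonneg A
  have hxR : (16 : ℝ) ≤ x := by exact_mod_cast hx
  have hx0 : (0 : ℝ) < x := by linarith
  have hlog : 2 ≤ Real.log x := by
    rw [Real.le_log_iff_exp_le hx0]
    have h1 : Real.exp 2 = Real.exp 1 * Real.exp 1 := by rw [← Real.exp_add]; norm_num
    have h2 := Real.exp_one_lt_d9
    have h3 := Real.exp_pos 1
    nlinarith
  set l := Real.log x with hldef
  have hl0 : 0 < l := by linarith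
  have hs4 : 4 ≤ Real.sqrt x := by
    rw [show (4 : ℝ) = Real.sqrt 16 by
      rw [show (16 : ℝ) = 4 ^ 2 by norm_num, Real.sqrt_sq (by norm_num)]]
    exact Real.sqrt_le_sqrt hxR
  have hs0 : 0 < Real.sqrt x := by linarith
  have hss : Real.sqrt x * Real.sqrt x = x := Real.mul_self_sqrt hx0.le
  have hB : 0 < l ^ (|A| + 5) := Real.rpow_pos_of_pos hl0 _
  have hT0 : 0 < 32 * Real.sqrt x * l := by positivity
  have hlogT : Real.log (32 * Real.sqrt x * l) ≤ 4 * l := by
    rw [Real.log_mul (by positivity) hl0.ne', Real.log_mul (by norm_num) hs0.ne']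
    have h1 : Real.log (Real.sqrt x) = l / 2 := Real.log_sqrt hx0.le
    have h2 : Real.log l ≤ l := (Real.log_le_sub_one_of_pos hl0).trans (by linarith)
    have h3 : Real.log 32 = 5 * Real.log 2 := by
      rw [show (32 : ℝ) = 2 ^ 5 by norm_num, Real.log_pow]; norm_num
    have h4 := Real.log_two_lt_d9
    rw [h1, h3]
    linarith
  set N := ⌊32 * Real.sqrt x * l⌋₊ with hN
  have hNT : (N : ℝ) ≤ 32 * Real.sqrt x * l := Nat.floor_le hT0.le
  let E : Finset ℕ := (Finset.Icc 1 N).filter (fun e => Real.sqrt x / (32 * l) ≤ (e : ℝ) ∧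
    l ^ (|A| + 5) ≤ (2 : ℝ) ^ e.primeFactors.card)
  have hlogN : 1 + Real.log N ≤ 5 * l := by
    rcases Nat.eq_zero_or_pos N with h0 | h0
    · rw [h0]
      simp
      linarith
    · have : Real.log N ≤ Real.log (32 * Real.sqrt x * l) :=
        Real.log_le_log (by exact_mod_cast h0) hNT
      linarith
  -- the number of `e`
  have hEcard : (E.card : ℝ) ≤ 160 * Real.sqrt x * l ^ 2 / l ^ (|A| + 5) := by
    have h1 := many_card N (l ^ (|A| + 5)) hB E (fun e he => by
      obtain ⟨h1, h2, h3⟩ := Finset.mem_filter.mp he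
      exact ⟨(Finset.mem_Icc.mp h1).1, (Finset.mem_Icc.mp h1).2, h3⟩)
    refine h1.trans ?_
    apply div_le_div_of_nonneg_right _ hB.le
    calc (N : ℝ) * (1 + Real.log N) ≤ (32 * Real.sqrt x * l) * (5 * l) := by
          apply mul_le_mul hNT hlogN _ hT0.le
          have : 0 ≤ Real.log N := Real.log_natCast_nonneg N
          linarith
      _ = _ := by ring
  -- each `e` has few multiples
  have hmult : ∀ e ∈ E, (((Finset.Icc 1 x).filter (fun n => Leh n ∧ e ∣ n)).card : ℝ) ≤
      5121 * Ct * l ^ 3 := by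
    intro e he
    obtain ⟨h1, h2, h3⟩ := Finset.mem_filter.mp he
    have he1 : 1 ≤ e := (Finset.mem_Icc.mp h1).1
    have heN : e ≤ N := (Finset.mem_Icc.mp h1).2
    have he0 : (0 : ℝ) < e := by exact_mod_cast he1
    have heT : (e : ℝ) ≤ 32 * Real.sqrt x * l := le_trans (by exact_mod_cast heN) hNT
    have hphi : (0 : ℝ) < Nat.totient e := by exact_mod_cast Nat.totient_pos.mpr he1
    have h4 := htot e he1
    have h5 : Real.log (1 + Real.log e) ≤ Real.log e := by
      have h6 : 0 ≤ Real.log e := Real.log_natCast_nonneg e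
      have := Real.log_le_sub_one_of_pos (by linarith : (0 : ℝ) < 1 + Real.log e)
      linarith
    have h7 : Real.log e ≤ 4 * l := (Real.log_le_log he0 heT).trans hlogT
    have h8 : (e : ℝ) / Nat.totient e ≤ 5 * Ct * l := by
      refine h4.trans ?_
      have : 1 + Real.log (1 + Real.log e) ≤ 5 * l := by linarith
      calc Ct * (1 + Real.log (1 + Real.log e)) ≤ Ct * (5 * l) :=
            mul_le_mul_of_nonneg_left this (by linarith)
        _ = _ := by ring
    have h9 : Real.sqrt x ≤ e * (32 * l) := by rwa [div_le_iff₀ (by positivity)] at h2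
    have h10 : (x : ℝ) ≤ (e * (32 * l)) ^ 2 := by
      rw [← hss, pow_two]
      exact mul_le_mul h9 h9 hs0.le (by positivity)
    have h11 : (x : ℝ) / (e * Nat.totient e) ≤ 5120 * Ct * l ^ 3 := by
      rw [div_le_iff₀ (by positivity)]
      rw [div_le_iff₀ hphi] at h8
      calc (x : ℝ) ≤ (e * (32 * l)) ^ 2 := h10
        _ = 1024 * l ^ 2 * (e * e) := by ring
        _ ≤ 1024 * l ^ 2 * (e * (5 * Ct * l * Nat.totient e)) := by
            apply mul_le_mul_of_nonneg_left _ (by positivity)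
            exact mul_le_mul_of_nonneg_left h8 he0.le
        _ = _ := by ring
    have h12 := multiples_card x e he1
    have h13 : 1 ≤ Ct * l ^ 3 := by
      have : 1 ≤ l ^ 3 := one_le_pow₀ (by linarith)
      nlinarith
    linarith
  -- covering
  have hcov : (Finset.Icc 1 x).filter (fun n => Leh n ∧ x < 2 * n ∧
      3 * (|A| + 5) * Real.log (Real.log x) < (n.primeFactors.card : ℝ)) ⊆
      E.biUnion (fun e => (Finset.Icc 1 x).filter (fun n => Leh n ∧ e ∣ n)) := by
    intro n hn
    obtain ⟨h1, hl, h2, h3⟩ := Finset.mem_filter.mp hn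
    obtain ⟨e, he1, he2, he3, he4⟩ := exists_e A x hx n hl h2 (Finset.mem_Icc.mp h1).2 h3 hlog
    rw [Finset.mem_biUnion]
    refine ⟨e, Finset.mem_filter.mpr ⟨Finset.mem_Icc.mpr ⟨?_, ?_⟩, he2, he4⟩,
      Finset.mem_filter.mpr ⟨h1, hl, he1⟩⟩
    · exact Nat.pos_of_dvd_of_pos he1 (Finset.mem_Icc.mp h1).1
    · exact Nat.le_floor he3
  have hfin : ((((Finset.Icc 1 x).filter (fun n => Leh n ∧ x < 2 * n ∧
      3 * (|A| + 5) * Real.log (Real.log x) < (n.primeFactors.card : ℝ))).card : ℕ) : ℝ) ≤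
      (E.card : ℝ) * (5121 * Ct * l ^ 3) := by
    calc ((((Finset.Icc 1 x).filter (fun n => Leh n ∧ x < 2 * n ∧
      3 * (|A| + 5) * Real.log (Real.log x) < (n.primeFactors.card : ℝ))).card : ℕ) : ℝ)
        ≤ ((E.biUnion (fun e => (Finset.Icc 1 x).filter (fun n => Leh n ∧ e ∣ n))).card : ℝ) := by
          exact_mod_cast Finset.card_le_card hcov
      _ ≤ ∑ e ∈ E, (((Finset.Icc 1 x).filter (fun n => Leh n ∧ e ∣ n)).card : ℝ) := by
          exact_mod_cast Finset.card_biUnion_le
      _ ≤ ∑ e ∈ E, 5121 * Ct * l ^ 3 := Finset.sum_le_sum hmult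
      _ = _ := by rw [Finset.sum_const, nsmul_eq_mul]
  refine hfin.trans ?_
  calc (E.card : ℝ) * (5121 * Ct * l ^ 3)
      ≤ (160 * Real.sqrt x * l ^ 2 / l ^ (|A| + 5)) * (5121 * Ct * l ^ 3) :=
        mul_le_mul_of_nonneg_right hEcard (by positivity)
    _ = 819360 * Ct * Real.sqrt x * (l ^ 5 / l ^ (|A| + 5)) := by ring
    _ ≤ 819360 * Ct * Real.sqrt x * (1 / l ^ A) := by
        apply mul_le_mul_of_nonneg_left _ (by positivity)
        rw [Real.rpow_add hl0, show (l ^ (5 : ℝ) : ℝ) = l ^ (5 : ℕ) by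
          rw [← Real.rpow_natCast]; norm_num]
        rw [div_mul_cancel_right₀ (by positivity), ← one_div]
        apply one_div_le_one_div_of_le (Real.rpow_pos_of_pos hl0 _)
        exact Real.rpow_le_rpow_of_exponent_le (by linarith) (le_abs_self A)
    _ = _ := by ring

end Pool.Agent.TH836.Leh
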