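import Pool.Agent.TH836.Leh.Pot
import Pool.Agent.TH836.Leh.Omega2
import Pool.Agent.H95R2.Leh.Final

set_option autoImplicit false

/-! the final count, uniform version -/

namespace Pool.Agent.TH836.Leh

open Finset Pool.Agent.H95R2.Leh

/-- the bound for one quotient `k` -/
theorem one_k2 (C0 : ℝ) (hC0 : 1 ≤ C0) : ∃ X0 : ℝ, 16 ≤ X0 ∧ ∀ x : ℕ, X0 ≤ x →
    1 ≤ Real.log (Real.log x) ∧
    ∀ (k : ℕ) (St : ℕ → ℕ → Prop), Fam k (C0 * (Real.log (Real.log x)) ^ 2) St →
      ((DD St x (2 * x)).card : ℝ) ≤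
        Real.sqrt x * Real.exp (-((Real.log (Real.log x)) ^ 2 / 40)) := by
  obtain ⟨L0, hL0, htop⟩ := top C0 hC0
  refine ⟨max 16 (Real.exp (Real.exp L0)), le_max_left _ _, ?_⟩
  intro x hx
  simp only [max_le_iff] at hx
  obtain ⟨hx16, hxL⟩ := hx
  have hx0 : (0 : ℝ) < x := by linarith
  have hlx : Real.exp L0 ≤ Real.log x := by
    have := Real.log_le_log (Real.exp_pos _) hxL
    rwa [Real.log_exp] at this
  have hlx0 : 0 < Real.log x := lt_of_lt_of_le (Real.exp_pos _) hlx
  set L := Real.log (Real.log x) with hL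
  have hLL0 : L0 ≤ L := by
    have := Real.log_le_log (Real.exp_pos _) hlx
    rwa [Real.log_exp] at this
  have hexpL : Real.log x = Real.exp L := (Real.exp_log hlx0).symm
  refine ⟨by linarith, ?_⟩
  intro k St hF
  have h := htop L hLL0 k _ St hF le_rfl x hx0 hexpL
  unfold Fn at h
  rw [div_le_iff₀ hx0] at h
  have hs : Real.sqrt x ≤ Real.sqrt (2 * x) := Real.sqrt_le_sqrt (by linarith)
  have hs0 : 0 < Real.sqrt x := Real.sqrt_pos.mpr hx0
  have h2 : ((DD St x (2 * x)).card : ℝ) * Real.sqrt x ≤ Real.exp (-(L ^ 2 / 40)) * x := by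
    refine le_trans ?_ h
    exact mul_le_mul_of_nonneg_left hs (Nat.cast_nonneg _)
  have h3 : (x : ℝ) = Real.sqrt x * Real.sqrt x := (Real.mul_self_sqrt hx0.le).symm
  have h4 : Real.exp (-(L ^ 2 / 40)) * (x : ℝ) =
      (Real.sqrt x * Real.exp (-(L ^ 2 / 40))) * Real.sqrt x := by
    calc Real.exp (-(L ^ 2 / 40)) * (x : ℝ) =
          Real.exp (-(L ^ 2 / 40)) * (Real.sqrt x * Real.sqrt x) := by rw [← h3]
      _ = _ := by ring
  rw [h4] at h2
  exact le_of_mul_le_mul_right h2 hs0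

open Classical in
/-- the dyadic count -/
theorem dyadic2 : ∃ C X0 : ℝ, 1 ≤ C ∧ 16 ≤ X0 ∧ ∀ x : ℕ, X0 ≤ x →
    ((((Finset.Icc 1 x).filter (fun n => Leh n ∧ x < 2 * n)).card : ℕ) : ℝ) ≤
      C * (Real.sqrt x * Real.exp (-((Real.log (Real.log x)) ^ 2 / 48))) := by
  obtain ⟨Co, hCo, homega⟩ := omega_unif
  obtain ⟨X1, hX1, hone⟩ := one_k2 18 (by norm_num)
  obtain ⟨La, hLa, ha⟩ := ev_polyd (1 / 240) 36 (by norm_num) 2
  refine ⟨1 + Co, max X1 (Real.exp (Real.exp La)), by linarith,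
    le_trans hX1 (le_max_left _ _), ?_⟩
  intro x hx
  simp only [max_le_iff] at hx
  obtain ⟨hx1, hxa⟩ := hx
  obtain ⟨hL1, hcount⟩ := hone x hx1
  have hx16 : (16 : ℝ) ≤ x := le_trans hX1 hx1
  have hx16' : 16 ≤ x := by exact_mod_cast hx16
  have hx0 : (0 : ℝ) < x := by linarith
  have hlxa : Real.exp La ≤ Real.log x := by
    have := Real.log_le_log (Real.exp_pos _) hxa
    rwa [Real.log_exp] at this
  have hlx0 : 0 < Real.log x := lt_of_lt_of_le (Real.exp_pos _) hlxa
  set L := Real.log (Real.log x) with hL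
  have hLLa : La ≤ L := by
    have := Real.log_le_log (Real.exp_pos _) hlxa
    rwa [Real.log_exp] at this
  replace ha := ha L hLLa
  have hexpL : Real.exp L = Real.log x := Real.exp_log hlx0
  set R := 18 * L ^ 2 with hR
  have hLsq : 1 ≤ L ^ 2 := one_le_pow₀ hL1
  have hR1 : 1 ≤ R := by linarith
  set M := ⌊R⌋₊ + 1 with hM
  have hthr : 3 * (|L| + 5) * L ≤ R := by
    rw [abs_of_nonneg (by linarith), hR]
    nlinarith
  have hsub : (Finset.Icc 1 x).filter (fun n => Leh n ∧ x < 2 * n) ⊆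
      ((Finset.Icc 1 M).biUnion (fun k => DD (StL x k R) x (2 * x))) ∪
      (Finset.Icc 1 x).filter (fun n => Leh n ∧ x < 2 * n ∧
        3 * (|L| + 5) * Real.log (Real.log x) < (n.primeFactors.card : ℝ)) := by
    intro n hn
    rw [Finset.mem_filter, Finset.mem_Icc] at hn
    obtain ⟨⟨hn1, hnx⟩, hleh, hx2⟩ := hn
    rw [Finset.mem_union]
    by_cases hw : 3 * (|L| + 5) * Real.log (Real.log x) < (n.primeFactors.card : ℝ)
    · right
      rw [Finset.mem_filter, Finset.mem_Icc]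
      exact ⟨⟨hn1, hnx⟩, hleh, hx2, hw⟩
    · left
      push Not at hw
      have hw' : (n.primeFactors.card : ℝ) ≤ R := le_trans hw hthr
      obtain ⟨k, hk2, hkn, hkw⟩ := leh_k hleh
      rw [Finset.mem_biUnion]
      refine ⟨k, ?_, ?_⟩
      · rw [Finset.mem_Icc]
        refine ⟨by omega, ?_⟩
        have h1 : n.primeFactors.card ≤ ⌊R⌋₊ := Nat.le_floor hw'
        omega
      · unfold DD
        rw [Finset.mem_filter, Finset.mem_Icc]
        refine ⟨⟨hn1, ?_⟩, ?_, 2 * x, ?_, ?_, ?_⟩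
        · rw [Nat.floor_natCast]; exact hnx
        · have : (x : ℝ) < 2 * n := by exact_mod_cast hx2
          linarith
        · push_cast; linarith
        · push_cast; linarith
        · exact ⟨n, hleh, hx2, hnx, hkn, hw', Or.inr ⟨rfl, rfl⟩⟩
  have hM2 : (M : ℝ) ≤ 2 * R := by
    have h1 : ((⌊R⌋₊ : ℕ) : ℝ) ≤ R := Nat.floor_le (by linarith)
    rw [hM]; push_cast
    linarith
  have h1 : ((((Finset.Icc 1 M).biUnion (fun k => DD (StL x k R) x (2 * x))).card : ℕ) : ℝ) ≤
      M * (Real.sqrt x * Real.exp (-(L ^ 2 / 40))) := by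
    have h2 : ((((Finset.Icc 1 M).biUnion (fun k => DD (StL x k R) x (2 * x))).card : ℕ) : ℝ) ≤
        ∑ k ∈ Finset.Icc 1 M, ((DD (StL x k R) x (2 * x)).card : ℝ) := by
      exact_mod_cast Finset.card_biUnion_le
    refine le_trans h2 ?_
    calc ∑ k ∈ Finset.Icc 1 M, ((DD (StL x k R) x (2 * x)).card : ℝ) ≤
        ∑ _k ∈ Finset.Icc 1 M, (Real.sqrt x * Real.exp (-(L ^ 2 / 40))) := by
          apply Finset.sum_le_sum
          intro k hk
          rw [Finset.mem_Icc] at hk
          exact hcount k (StL x k R) (fam_leh x k R hk.1 hR1)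
      _ = M * (Real.sqrt x * Real.exp (-(L ^ 2 / 40))) := by
          rw [Finset.sum_const, nsmul_eq_mul, Nat.card_Icc]
          simp
  have h2 := homega L x hx16'
  have h3 : ((((Finset.Icc 1 x).filter (fun n => Leh n ∧ x < 2 * n)).card : ℕ) : ℝ) ≤
      ((((Finset.Icc 1 M).biUnion (fun k => DD (StL x k R) x (2 * x))).card : ℕ) : ℝ) +
      ((((Finset.Icc 1 x).filter (fun n => Leh n ∧ x < 2 * n ∧
        3 * (|L| + 5) * Real.log (Real.log x) < (n.primeFactors.card : ℝ))).card : ℕ) : ℝ) := by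
    exact_mod_cast le_trans (Finset.card_le_card hsub) (Finset.card_union_le _ _)
  have h4 : (M : ℝ) * (Real.sqrt x * Real.exp (-(L ^ 2 / 40))) ≤
      Real.sqrt x * Real.exp (-(L ^ 2 / 48)) := by
    have h5 : (M : ℝ) ≤ Real.exp (L ^ 2 / 240) := by
      calc (M : ℝ) ≤ 2 * R := hM2
        _ = 36 * L ^ 2 := by rw [hR]; ring
        _ ≤ Real.exp (1 / 240 * L) := ha
        _ ≤ Real.exp (L ^ 2 / 240) := by
            apply Real.exp_le_exp.mpr
            nlinarith
    calc (M : ℝ) * (Real.sqrt x * Real.exp (-(L ^ 2 / 40))) ≤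
          Real.exp (L ^ 2 / 240) * (Real.sqrt x * Real.exp (-(L ^ 2 / 40))) :=
          mul_le_mul_of_nonneg_right h5 (by positivity)
      _ = Real.sqrt x * (Real.exp (L ^ 2 / 240) * Real.exp (-(L ^ 2 / 40))) := by ring
      _ = Real.sqrt x * Real.exp (-(L ^ 2 / 48)) := by
          rw [← Real.exp_add]
          congr 2
          ring
  have h6 : Co * Real.sqrt x / (Real.log x) ^ L ≤
      Co * (Real.sqrt x * Real.exp (-(L ^ 2 / 48))) := by
    have h7 : (Real.log x) ^ L = Real.exp (L ^ 2) := by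
      rw [Real.rpow_def_of_pos hlx0, ← hL]
      congr 1; ring
    rw [h7, div_eq_mul_inv, ← Real.exp_neg, mul_assoc]
    apply mul_le_mul_of_nonneg_left _ (by linarith)
    apply mul_le_mul_of_nonneg_left _ (Real.sqrt_nonneg _)
    apply Real.exp_le_exp.mpr
    linarith
  linarith

theorem half_bound2 : ∃ X0 : ℝ, 16 ≤ X0 ∧ ∀ x : ℕ, X0 ≤ x →
    Real.sqrt ((x / 2 : ℕ) : ℝ) *
      Real.exp (-((Real.log (Real.log ((x / 2 : ℕ) : ℝ))) ^ 2 / 48)) ≤
      4 / 5 * (Real.sqrt x * Real.exp (-((Real.log (Real.log x)) ^ 2 / 48))) := by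
  refine ⟨max 16 (Real.exp 100), le_max_left _ _, ?_⟩
  intro x hx
  simp only [max_le_iff] at hx
  obtain ⟨hx16, hxe⟩ := hx
  have hx16' : 16 ≤ x := by exact_mod_cast hx16
  have hx0 : (0 : ℝ) < x := by linarith
  set h : ℕ := x / 2 with hh
  have hh1 : x ≤ 3 * h := by omega
  have hh2 : 2 * h ≤ x := by omega
  have hh1' : (x : ℝ) ≤ 3 * h := by exact_mod_cast hh1
  have hh2' : 2 * (h : ℝ) ≤ x := by exact_mod_cast hh2
  have hh0 : (0 : ℝ) < h := by linarith
  have hlx : 100 ≤ Real.log x := by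
    have := Real.log_le_log (Real.exp_pos _) hxe
    rwa [Real.log_exp] at this
  have hl3 : Real.log 3 ≤ 2 := by
    have := Real.log_le_sub_one_of_pos (show (0:ℝ) < 3 by norm_num)
    linarith
  have hlh : Real.log x - 2 ≤ Real.log h := by
    have h1 := Real.log_le_log hx0 hh1'
    rw [Real.log_mul (by norm_num) hh0.ne'] at h1
    linarith
  have hlhx : Real.log h ≤ Real.log x := Real.log_le_log hh0 (by linarith)
  have hlh0 : 0 < Real.log h := by linarith
  set l := Real.log x with hl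
  set l' := Real.log (h : ℝ) with hl'
  set L := Real.log l with hL
  set L' := Real.log l' with hL'
  have hL'L : L' ≤ L := Real.log_le_log hlh0 hlhx
  have hL'0 : 0 ≤ L' := Real.log_nonneg (by linarith)
  have hdiff : L - L' ≤ 4 / l := by
    have h1 : L - L' = Real.log (l / l') := by
      rw [Real.log_div (by linarith) hlh0.ne']
    rw [h1]
    have h2 := Real.log_le_sub_one_of_pos (show 0 < l / l' by positivity)
    refine le_trans h2 ?_
    have h3 : l / l' - 1 = (l - l') / l' := by field_simp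
    rw [h3, div_le_div_iff₀ hlh0 (by linarith)]
    nlinarith
  have hLl : L ≤ l / 10 := by
    have h1 := Real.log_le_sub_one_of_pos (show 0 < l / 20 by linarith)
    rw [Real.log_div (by linarith) (by norm_num)] at h1
    have h2 : Real.log 20 ≤ 4 := by
      rw [Real.log_le_iff_le_exp (by norm_num)]
      have h3 : Real.exp 4 = Real.exp 1 ^ 4 := by rw [← Real.exp_nat_mul]; norm_num
      rw [h3]
      have h4 := Real.exp_one_gt_d9
      have h5 : (2.7 : ℝ) ^ 4 ≤ Real.exp 1 ^ 4 := pow_le_pow_left₀ (by norm_num) (by linarith) 4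
      norm_num at h5 ⊢
      linarith
    linarith
  have hsqd : L ^ 2 / 48 - L' ^ 2 / 48 ≤ 1 / 60 := by
    have h1 : L ^ 2 - L' ^ 2 ≤ (4 / l) * (2 * (l / 10)) := by
      calc L ^ 2 - L' ^ 2 = (L - L') * (L + L') := by ring
        _ ≤ (4 / l) * (2 * (l / 10)) := by
            apply mul_le_mul hdiff (by linarith) (by linarith) (by positivity)
    have h2 : (4 / l) * (2 * (l / 10)) = 4 / 5 := by field_simp; norm_num
    rw [h2] at h1
    linarith
  have hexp : Real.exp (-(L' ^ 2 / 48)) ≤ Real.exp (-(L ^ 2 / 48)) * (60 / 59) := by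
    have h1 : Real.exp (1 / 60) ≤ 60 / 59 := by
      have h2 := Real.add_one_le_exp (-(1 / 60 : ℝ))
      rw [Real.exp_neg] at h2
      have h3 : (59 / 60 : ℝ) ≤ (Real.exp (1 / 60))⁻¹ := by linarith
      rw [le_inv_comm₀ (by norm_num) (Real.exp_pos _)] at h3
      linarith [h3, show ((59 / 60 : ℝ))⁻¹ = 60 / 59 by norm_num]
    calc Real.exp (-(L' ^ 2 / 48)) ≤ Real.exp (-(L ^ 2 / 48) + 1 / 60) :=
          Real.exp_le_exp.mpr (by linarith)
      _ = Real.exp (-(L ^ 2 / 48)) * Real.exp (1 / 60) := by rw [Real.exp_add]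
      _ ≤ _ := mul_le_mul_of_nonneg_left h1 (Real.exp_pos _).le
  have hsq : Real.sqrt h ≤ 72 / 100 * Real.sqrt x := by
    have h1 : Real.sqrt h ≤ Real.sqrt ((72 / 100) ^ 2 * x) := by
      apply Real.sqrt_le_sqrt
      linarith
    rwa [Real.sqrt_mul (by positivity), Real.sqrt_sq (by norm_num)] at h1
  calc Real.sqrt h * Real.exp (-(L' ^ 2 / 48)) ≤
        (72 / 100 * Real.sqrt x) * (Real.exp (-(L ^ 2 / 48)) * (60 / 59)) :=
        mul_le_mul hsq hexp (Real.exp_pos _).le (by positivity)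
    _ = (72 / 100 * (60 / 59)) * (Real.sqrt x * Real.exp (-(L ^ 2 / 48))) := by ring
    _ ≤ _ := mul_le_mul_of_nonneg_right (by norm_num) (by positivity)

open Classical in
/-- the number of Lehmer numbers up to `x` is at most `C √x exp (-(log log x)² / 48)` -/
theorem lehmer_count2 : ∃ C : ℝ, 0 < C ∧ ∀ x : ℕ, 2 ≤ x →
    ((((Finset.Icc 1 x).filter Leh).card : ℕ) : ℝ) ≤
      C * (Real.sqrt x * Real.exp (-((Real.log (Real.log x)) ^ 2 / 48))) := by
  obtain ⟨C1, X1, hC1, hX1, hdy⟩ := dyadic2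
  obtain ⟨X2, hX2, hhalf⟩ := half_bound2
  set N0 : ℕ := ⌈max X1 X2⌉₊ with hN0
  set g : ℕ → ℝ := fun x => Real.sqrt x * Real.exp (-((Real.log (Real.log x)) ^ 2 / 48)) with hg
  have hB : ∀ x : ℕ, 2 ≤ x → 0 < g x := by
    intro x hx
    have hx1 : (0 : ℝ) < x := by exact_mod_cast (by omega : 0 < x)
    have h2 : 0 < Real.sqrt x := Real.sqrt_pos.mpr hx1
    rw [hg]
    positivity
  set Cs := ∑ y ∈ Finset.Icc 2 N0, (y : ℝ) / g y with hCs
  have hCs0 : 0 ≤ Cs := by
    apply Finset.sum_nonneg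
    intro y hy
    rw [Finset.mem_Icc] at hy
    have := hB y hy.1
    positivity
  refine ⟨5 * C1 + Cs, by linarith, ?_⟩
  intro x
  change 2 ≤ x → ((((Finset.Icc 1 x).filter Leh).card : ℕ) : ℝ) ≤ (5 * C1 + Cs) * g x
  induction x using Nat.strong_induction_on with
  | _ x ih =>
    intro hx2
    have hBx := hB x hx2
    by_cases hxN : x ≤ N0
    · have h1 : (x : ℝ) / g x ≤ Cs := by
        rw [hCs]
        apply Finset.single_le_sum (f := fun y : ℕ => (y : ℝ) / g y)
        · intro y hy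
          rw [Finset.mem_Icc] at hy
          have := hB y hy.1
          positivity
        · rw [Finset.mem_Icc]; exact ⟨hx2, hxN⟩
      rw [div_le_iff₀ hBx] at h1
      have h2 : ((((Finset.Icc 1 x).filter Leh).card : ℕ) : ℝ) ≤ x := by
        have : ((Finset.Icc 1 x).filter Leh).card ≤ x := by
          refine le_trans (Finset.card_filter_le _ _) ?_
          rw [Nat.card_Icc]; omega
        exact_mod_cast this
      nlinarith
    · push Not at hxN
      have hxr : max X1 X2 ≤ x := by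
        have h1 : max X1 X2 ≤ N0 := Nat.le_ceil _
        have h2 : (N0 : ℝ) ≤ x := by exact_mod_cast hxN.le
        linarith
      have hx1 : X1 ≤ x := le_trans (le_max_left _ _) hxr
      have hx2' : X2 ≤ x := le_trans (le_max_right _ _) hxr
      have hx16 : (16 : ℝ) ≤ x := by linarith
      have hx16' : 16 ≤ x := by exact_mod_cast hx16
      have h1 : ((((Finset.Icc 1 x).filter (fun n => Leh n ∧ x < 2 * n)).card : ℕ) : ℝ) ≤
          C1 * g x := hdy x hx1
      have h2 : g (x / 2) ≤ 4 / 5 * g x := hhalf x hx2'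
      have h3 := ih (x / 2) (by omega) (by omega)
      have hsub : (Finset.Icc 1 x).filter Leh ⊆
          ((Finset.Icc 1 (x / 2)).filter Leh) ∪
          ((Finset.Icc 1 x).filter (fun n => Leh n ∧ x < 2 * n)) := by
        intro n hn
        rw [Finset.mem_filter, Finset.mem_Icc] at hn
        rw [Finset.mem_union, Finset.mem_filter, Finset.mem_filter, Finset.mem_Icc,
          Finset.mem_Icc]
        by_cases h : x < 2 * n
        · right; exact ⟨hn.1, hn.2, h⟩
        · left; exact ⟨⟨hn.1.1, by omega⟩, hn.2⟩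
      have h4 : ((((Finset.Icc 1 x).filter Leh).card : ℕ) : ℝ) ≤
          ((((Finset.Icc 1 (x / 2)).filter Leh).card : ℕ) : ℝ) +
          ((((Finset.Icc 1 x).filter (fun n => Leh n ∧ x < 2 * n)).card : ℕ) : ℝ) := by
        exact_mod_cast le_trans (Finset.card_le_card hsub) (Finset.card_union_le _ _)
      have h5 : (5 * C1 + Cs) * g (x / 2) ≤ (5 * C1 + Cs) * (4 / 5 * g x) :=
        mul_le_mul_of_nonneg_left h2 (by linarith)
      nlinarith

end Pool.Agent.TH836.Leh
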