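import Pool.Agent.TH836.Leh.Final2
import Pool.Agent.TH836.Leh.OmegaP

set_option autoImplicit false

/-! the final count for `φ(n) ∣ n + 1` -/

namespace Pool.Agent.TH836.Leh

open Finset Pool.Agent.H95R2.Leh

open Classical in
/-- the dyadic count -/
theorem dyadicP : ∃ C X0 : ℝ, 1 ≤ C ∧ 16 ≤ X0 ∧ ∀ x : ℕ, X0 ≤ x →
    ((((Finset.Icc 1 x).filter (fun n => LehP n ∧ x < 2 * n)).card : ℕ) : ℝ) ≤
      C * (Real.sqrt x * Real.exp (-((Real.log (Real.log x)) ^ 2 / 48))) := by
  obtain ⟨Co, hCo, homega⟩ := omegaP_unif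
  obtain ⟨X1, hX1, hone⟩ := one_k2 18 (by norm_num)
  obtain ⟨La, hLa, ha⟩ := ev_polyd (1 / 240) 36 (by norm_num) 2
  refine ⟨1 + Co, max X1 (Real.exp (Real.exp La)), by linarith,
    le_trans hX1 (le_max_left _ _), ?_⟩
  intro x hx
  simp only [max_le_iff] at hx
  obtain ⟨hx1, hxa⟩ := hx
  obtain ⟨hL1, hcount⟩ := hone x hx1
  have hx16 : (16 : ℝ) ≤ x := le_trans hX1 hx1
  have hx16' : 16 ≤ x := by exact_mod_cast hx16
  have hx0 : (0 : ℝ) < x := by linarith
  have hlxa : Real.exp La ≤ Real.log x := by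
    have := Real.log_le_log (Real.exp_pos _) hxa
    rwa [Real.log_exp] at this
  have hlx0 : 0 < Real.log x := lt_of_lt_of_le (Real.exp_pos _) hlxa
  set L := Real.log (Real.log x) with hL
  have hLLa : La ≤ L := by
    have := Real.log_le_log (Real.exp_pos _) hlxa
    rwa [Real.log_exp] at this
  replace ha := ha L hLLa
  have hexpL : Real.exp L = Real.log x := Real.exp_log hlx0
  set R := 18 * L ^ 2 with hR
  have hLsq : 1 ≤ L ^ 2 := one_le_pow₀ hL1
  have hR1 : 1 ≤ R := by linarith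
  set M := ⌊R⌋₊ + 2 with hM
  have hthr : 3 * (|L| + 5) * L ≤ R := by
    rw [abs_of_nonneg (by linarith), hR]
    nlinarith
  have hsub : (Finset.Icc 1 x).filter (fun n => LehP n ∧ x < 2 * n) ⊆
      ((Finset.Icc 2 M).biUnion (fun k => DD (StP x k R) x (2 * x))) ∪
      (Finset.Icc 1 x).filter (fun n => LehP n ∧ x < 2 * n ∧
        3 * (|L| + 5) * Real.log (Real.log x) < (n.primeFactors.card : ℝ)) := by
    intro n hn
    rw [Finset.mem_filter, Finset.mem_Icc] at hn
    obtain ⟨⟨hn1, hnx⟩, hleh, hx2⟩ := hn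
    rw [Finset.mem_union]
    by_cases hw : 3 * (|L| + 5) * Real.log (Real.log x) < (n.primeFactors.card : ℝ)
    · right
      rw [Finset.mem_filter, Finset.mem_Icc]
      exact ⟨⟨hn1, hnx⟩, hleh, hx2, hw⟩
    · left
      push Not at hw
      have hw' : (n.primeFactors.card : ℝ) ≤ R := le_trans hw hthr
      obtain ⟨k, hk2, hkn, hkw⟩ := lehP_k hleh
      rw [Finset.mem_biUnion]
      refine ⟨k, ?_, ?_⟩
      · rw [Finset.mem_Icc]
        refine ⟨by omega, ?_⟩
        have h1 : n.primeFactors.card ≤ ⌊R⌋₊ := Nat.le_floor hw'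
        omega
      · unfold DD
        rw [Finset.mem_filter, Finset.mem_Icc]
        refine ⟨⟨hn1, ?_⟩, ?_, 2 * x, ?_, ?_, ?_⟩
        · rw [Nat.floor_natCast]; exact hnx
        · have : (x : ℝ) < 2 * n := by exact_mod_cast hx2
          linarith
        · push_cast; linarith
        · push_cast; linarith
        · exact ⟨n, hleh, hx2, hnx, hkn, hw', Or.inr ⟨rfl, rfl⟩⟩
  have hM2 : (M : ℝ) ≤ 2 * R := by
    have hR18 : 18 ≤ R := by linarith
    have h1 : ((⌊R⌋₊ : ℕ) : ℝ) ≤ R := Nat.floor_le (by linarith)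
    rw [hM]; push_cast
    linarith
  have h1 : ((((Finset.Icc 2 M).biUnion (fun k => DD (StP x k R) x (2 * x))).card : ℕ) : ℝ) ≤
      M * (Real.sqrt x * Real.exp (-(L ^ 2 / 40))) := by
    have h2 : ((((Finset.Icc 2 M).biUnion (fun k => DD (StP x k R) x (2 * x))).card : ℕ) : ℝ) ≤
        ∑ k ∈ Finset.Icc 2 M, ((DD (StP x k R) x (2 * x)).card : ℝ) := by
      exact_mod_cast Finset.card_biUnion_le
    refine le_trans h2 ?_
    calc ∑ k ∈ Finset.Icc 2 M, ((DD (StP x k R) x (2 * x)).card : ℝ) ≤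
        ∑ _k ∈ Finset.Icc 2 M, (Real.sqrt x * Real.exp (-(L ^ 2 / 40))) := by
          apply Finset.sum_le_sum
          intro k hk
          rw [Finset.mem_Icc] at hk
          exact hcount k (StP x k R) (fam_lehP x k R hk.1 hR1)
      _ ≤ M * (Real.sqrt x * Real.exp (-(L ^ 2 / 40))) := by
          rw [Finset.sum_const, nsmul_eq_mul, Nat.card_Icc]
          apply mul_le_mul_of_nonneg_right _ (by positivity)
          exact_mod_cast (by omega : M + 1 - 2 ≤ M)
  have h2 := homega L x hx16'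
  have h3 : ((((Finset.Icc 1 x).filter (fun n => LehP n ∧ x < 2 * n)).card : ℕ) : ℝ) ≤
      ((((Finset.Icc 2 M).biUnion (fun k => DD (StP x k R) x (2 * x))).card : ℕ) : ℝ) +
      ((((Finset.Icc 1 x).filter (fun n => LehP n ∧ x < 2 * n ∧
        3 * (|L| + 5) * Real.log (Real.log x) < (n.primeFactors.card : ℝ))).card : ℕ) : ℝ) := by
    exact_mod_cast le_trans (Finset.card_le_card hsub) (Finset.card_union_le _ _)
  have h4 : (M : ℝ) * (Real.sqrt x * Real.exp (-(L ^ 2 / 40))) ≤
      Real.sqrt x * Real.exp (-(L ^ 2 / 48)) := by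
    have h5 : (M : ℝ) ≤ Real.exp (L ^ 2 / 240) := by
      calc (M : ℝ) ≤ 2 * R := hM2
        _ = 36 * L ^ 2 := by rw [hR]; ring
        _ ≤ Real.exp (1 / 240 * L) := ha
        _ ≤ Real.exp (L ^ 2 / 240) := by
            apply Real.exp_le_exp.mpr
            nlinarith
    calc (M : ℝ) * (Real.sqrt x * Real.exp (-(L ^ 2 / 40))) ≤
          Real.exp (L ^ 2 / 240) * (Real.sqrt x * Real.exp (-(L ^ 2 / 40))) :=
          mul_le_mul_of_nonneg_right h5 (by positivity)
      _ = Real.sqrt x * (Real.exp (L ^ 2 / 240) * Real.exp (-(L ^ 2 / 40))) := by ring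
      _ = Real.sqrt x * Real.exp (-(L ^ 2 / 48)) := by
          rw [← Real.exp_add]
          congr 2
          ring
  have h6 : Co * Real.sqrt x / (Real.log x) ^ L ≤
      Co * (Real.sqrt x * Real.exp (-(L ^ 2 / 48))) := by
    have h7 : (Real.log x) ^ L = Real.exp (L ^ 2) := by
      rw [Real.rpow_def_of_pos hlx0, ← hL]
      congr 1; ring
    rw [h7, div_eq_mul_inv, ← Real.exp_neg, mul_assoc]
    apply mul_le_mul_of_nonneg_left _ (by linarith)
    apply mul_le_mul_of_nonneg_left _ (Real.sqrt_nonneg _)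
    apply Real.exp_le_exp.mpr
    linarith
  linarith

open Classical in
/-- the number of `n ≤ x` with `2 < n` and `φ(n) ∣ n + 1` is at most `C √x exp (-(log log x)² / 48)` -/
theorem plus_count : ∃ C : ℝ, 0 < C ∧ ∀ x : ℕ, 2 ≤ x →
    ((((Finset.Icc 1 x).filter LehP).card : ℕ) : ℝ) ≤
      C * (Real.sqrt x * Real.exp (-((Real.log (Real.log x)) ^ 2 / 48))) := by
  obtain ⟨C1, X1, hC1, hX1, hdy⟩ := dyadicP
  obtain ⟨X2, hX2, hhalf⟩ := half_bound2
  set N0 : ℕ := ⌈max X1 X2⌉₊ with hN0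
  set g : ℕ → ℝ := fun x => Real.sqrt x * Real.exp (-((Real.log (Real.log x)) ^ 2 / 48)) with hg
  have hB : ∀ x : ℕ, 2 ≤ x → 0 < g x := by
    intro x hx
    have hx1 : (0 : ℝ) < x := by exact_mod_cast (by omega : 0 < x)
    have h2 : 0 < Real.sqrt x := Real.sqrt_pos.mpr hx1
    rw [hg]
    positivity
  set Cs := ∑ y ∈ Finset.Icc 2 N0, (y : ℝ) / g y with hCs
  have hCs0 : 0 ≤ Cs := by
    apply Finset.sum_nonneg
    intro y hy
    rw [Finset.mem_Icc] at hy
    have := hB y hy.1
    positivity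
  refine ⟨5 * C1 + Cs, by linarith, ?_⟩
  intro x
  change 2 ≤ x → ((((Finset.Icc 1 x).filter LehP).card : ℕ) : ℝ) ≤ (5 * C1 + Cs) * g x
  induction x using Nat.strong_induction_on with
  | _ x ih =>
    intro hx2
    have hBx := hB x hx2
    by_cases hxN : x ≤ N0
    · have h1 : (x : ℝ) / g x ≤ Cs := by
        rw [hCs]
        apply Finset.single_le_sum (f := fun y : ℕ => (y : ℝ) / g y)
        · intro y hy
          rw [Finset.mem_Icc] at hy
          have := hB y hy.1
          positivity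
        · rw [Finset.mem_Icc]; exact ⟨hx2, hxN⟩
      rw [div_le_iff₀ hBx] at h1
      have h2 : ((((Finset.Icc 1 x).filter LehP).card : ℕ) : ℝ) ≤ x := by
        have : ((Finset.Icc 1 x).filter LehP).card ≤ x := by
          refine le_trans (Finset.card_filter_le _ _) ?_
          rw [Nat.card_Icc]; omega
        exact_mod_cast this
      nlinarith
    · push Not at hxN
      have hxr : max X1 X2 ≤ x := by
        have h1 : max X1 X2 ≤ N0 := Nat.le_ceil _
        have h2 : (N0 : ℝ) ≤ x := by exact_mod_cast hxN.le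
        linarith
      have hx1 : X1 ≤ x := le_trans (le_max_left _ _) hxr
      have hx2' : X2 ≤ x := le_trans (le_max_right _ _) hxr
      have hx16 : (16 : ℝ) ≤ x := by linarith
      have hx16' : 16 ≤ x := by exact_mod_cast hx16
      have h1 : ((((Finset.Icc 1 x).filter (fun n => LehP n ∧ x < 2 * n)).card : ℕ) : ℝ) ≤
          C1 * g x := hdy x hx1
      have h2 : g (x / 2) ≤ 4 / 5 * g x := hhalf x hx2'
      have h3 := ih (x / 2) (by omega) (by omega)
      have hsub : (Finset.Icc 1 x).filter LehP ⊆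
          ((Finset.Icc 1 (x / 2)).filter LehP) ∪
          ((Finset.Icc 1 x).filter (fun n => LehP n ∧ x < 2 * n)) := by
        intro n hn
        rw [Finset.mem_filter, Finset.mem_Icc] at hn
        rw [Finset.mem_union, Finset.mem_filter, Finset.mem_filter, Finset.mem_Icc,
          Finset.mem_Icc]
        by_cases h : x < 2 * n
        · right; exact ⟨hn.1, hn.2, h⟩
        · left; exact ⟨⟨hn.1.1, by omega⟩, hn.2⟩
      have h4 : ((((Finset.Icc 1 x).filter LehP).card : ℕ) : ℝ) ≤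
          ((((Finset.Icc 1 (x / 2)).filter LehP).card : ℕ) : ℝ) +
          ((((Finset.Icc 1 x).filter (fun n => LehP n ∧ x < 2 * n)).card : ℕ) : ℝ) := by
        exact_mod_cast le_trans (Finset.card_le_card hsub) (Finset.card_union_le _ _)
      have h5 : (5 * C1 + Cs) * g (x / 2) ≤ (5 * C1 + Cs) * (4 / 5 * g x) :=
        mul_le_mul_of_nonneg_left h2 (by linarith)
      nlinarith

end Pool.Agent.TH836.Leh
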