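import Pool.Agent.TH836.Leh.StepE2

set_option autoImplicit false

/-! the potential bound -/

namespace Pool.Agent.TH836.Leh

open Finset Pool.Agent.H95R2.Leh

/-- the majorant: `L ^ 5 (p / p0) ^ (L / 8) (L ^ 5 p0 / (Y - 4 p / 5)) ^ (L / 4)`, `p0 = exp (3 L / 4)` -/
noncomputable def Bd (L p Y : ℝ) : ℝ :=
  Real.exp (5 * Real.log L + L / 8 * (Real.log p - 3 / 4 * L) +
    L / 4 * (5 * Real.log L + 3 / 4 * L - Real.log (Y - 4 / 5 * p)))

theorem Bd_pos (L p Y : ℝ) : 0 < Bd L p Y := Real.exp_pos _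

theorem Bd_E {L p Y p' Y' U : ℝ} (hL : 0 < L) (hp' : 0 < p') (hpp : p' ≤ p)
    (hYp : 99 / 100 * p ≤ Y) (hY : Y - (p + p') / 2 - U ≤ Y') (hY' : 99 / 100 * p' ≤ Y')
    (hU : 100 * U ≤ p') : Bd L p' Y' ≤ Bd L p Y * Real.exp (L / 2) := by
  unfold Bd
  rw [← Real.exp_add]
  apply Real.exp_le_exp.mpr
  have h1 : Real.log p' ≤ Real.log p := Real.log_le_log hp' hpp
  have h2 : 0 < Y - 4 / 5 * p := by linarith
  have h3 : 0 < Y' - 4 / 5 * p' := by linarith
  have h4 : Y - 4 / 5 * p ≤ Real.exp 2 * (Y' - 4 / 5 * p') := by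
    have h5 : (7 : ℝ) ≤ Real.exp 2 := by
      have h6 := Real.exp_one_gt_d9
      have h7 : Real.exp 2 = Real.exp 1 * Real.exp 1 := by rw [← Real.exp_add]; norm_num
      nlinarith
    have h8 : 7 * (Y' - 4 / 5 * p') ≤ Real.exp 2 * (Y' - 4 / 5 * p') :=
      mul_le_mul_of_nonneg_right h5 h3.le
    linarith
  have h5 : Real.log (Y - 4 / 5 * p) ≤ 2 + Real.log (Y' - 4 / 5 * p') := by
    have := Real.log_le_log h2 h4
    rwa [Real.log_mul (Real.exp_pos _).ne' h3.ne', Real.log_exp] at this
  have h6 : L / 8 * Real.log p' ≤ L / 8 * Real.log p := mul_le_mul_of_nonneg_left h1 (by linarith)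
  have h7 : L / 4 * Real.log (Y - 4 / 5 * p) ≤ L / 4 * (2 + Real.log (Y' - 4 / 5 * p')) :=
    mul_le_mul_of_nonneg_left h5 (by linarith)
  linarith

theorem Bd_H {L p Y p' Y' U : ℝ} (hL : 0 < L) (hp' : 0 < p')
    (h5p : 5 * p' ≤ p + 2 * U + 6 * Real.log 2)
    (hYp : 99 / 100 * p ≤ Y) (hY : Y - (p + p') / 2 - U ≤ Y')
    (hU : 100 * U + 100 ≤ p) (hU0 : 0 ≤ U) :
    Bd L p' Y' ≤ Bd L p Y * Real.exp (-(L / 10)) := by
  unfold Bd
  rw [← Real.exp_add]
  apply Real.exp_le_exp.mpr
  have hlog2 := Real.log_two_gt_d9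
  have hlog2' := Real.log_two_lt_d9
  have hp : 0 < p := by linarith
  have h1 : Real.log p' ≤ Real.log p - 4 / 5 := by
    have h2 : p' * 4 ≤ p := by linarith
    have h3 := Real.log_le_log (by positivity) h2
    rw [Real.log_mul hp'.ne' (by norm_num), show (4 : ℝ) = 2 ^ 2 by norm_num, Real.log_pow] at h3
    push_cast at h3
    linarith
  have h2 : 0 < Y - 4 / 5 * p := by linarith
  have h3 : Y - 4 / 5 * p ≤ Y' - 4 / 5 * p' := by linarith
  have h5 : Real.log (Y - 4 / 5 * p) ≤ Real.log (Y' - 4 / 5 * p') := Real.log_le_log h2 h3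
  have h6 : L / 8 * Real.log p' ≤ L / 8 * (Real.log p - 4 / 5) :=
    mul_le_mul_of_nonneg_left h1 (by linarith)
  have h7 : L / 4 * Real.log (Y - 4 / 5 * p) ≤ L / 4 * Real.log (Y' - 4 / 5 * p') :=
    mul_le_mul_of_nonneg_left h5 (by linarith)
  linarith

/-- lower bound for the majorant -/
theorem Bd_lower {L p Y t : ℝ} (hL : 1 ≤ L) (hp : Real.exp (3 / 4 * L) ≤ p)
    (hYp : 99 / 100 * p ≤ Y) (ht : Real.log Y ≤ t) :
    Real.exp (5 * Real.log L + L / 4 * (5 * Real.log L + 3 / 4 * L - t)) ≤ Bd L p Y := by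
  unfold Bd
  apply Real.exp_le_exp.mpr
  have hp0 : 0 < p := lt_of_lt_of_le (Real.exp_pos _) hp
  have h1 : 3 / 4 * L ≤ Real.log p := by rwa [Real.le_log_iff_exp_le hp0]
  have h2 : Real.log (Y - 4 / 5 * p) ≤ Real.log Y :=
    Real.log_le_log (by linarith) (by linarith)
  have h3 : 0 ≤ L / 8 * (Real.log p - 3 / 4 * L) := by
    apply mul_nonneg (by linarith) (by linarith)
  have h4 : L / 4 * Real.log (Y - 4 / 5 * p) ≤ L / 4 * t :=
    mul_le_mul_of_nonneg_left (by linarith) (by linarith)
  linarith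

theorem pot (C0 : ℝ) (hC0 : 1 ≤ C0) : ∃ L0 : ℝ, 1 ≤ L0 ∧
    ∀ L : ℝ, L0 ≤ L → ∀ (k : ℕ) (R : ℝ) (St : ℕ → ℕ → Prop), Fam k R St →
    R ≤ C0 * L ^ 2 → ∀ n : ℕ, ∀ y P : ℝ, 0 < y → y ≤ 2 ^ n →
    Real.exp (Real.exp (3 / 4 * L)) ≤ P → Real.log P ≤ 2 * Real.exp L →
    99 / 100 * Real.log P ≤ Real.log y → Fn St y P ≤ Bd L (Real.log P) (Real.log y) := by
  obtain ⟨L1, hL1, hstep⟩ := step_core2 C0 hC0
  obtain ⟨Ct, hCt, htriv⟩ := Fn_triv
  obtain ⟨Cs, hCs, hsmooth⟩ := Fn_smooth
  obtain ⟨La, hLa, ha⟩ := ev_polyd (1 / 10) 4 (by norm_num) 8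
  obtain ⟨Lb, hLb, hb⟩ := ev_polyd (1 / 2) (44800 * (Ct * Cs) * C0) (by norm_num) 4
  obtain ⟨Lc, hLc, hc⟩ := ev_polyd 1 (Cs * C0 ^ 2) (by norm_num) 4
  obtain ⟨Ld, hLd, hd⟩ := ev_polyd (1 / 2) 30800 (by norm_num) 4
  refine ⟨max (max L1 La) (max (max Lb Lc) (max Ld (28 * Real.exp 5 + Ct * C0 ^ 2))),
    le_trans hL1 (le_trans (le_max_left _ _) (le_max_left _ _)), ?_⟩
  intro L hL k R St hF hRL
  simp only [max_le_iff] at hL
  obtain ⟨⟨hLL1, hLLa⟩, ⟨hLLb, hLLc⟩, hLLd, hLLe⟩ := hL
  replace ha := ha L hLLa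
  replace hb := hb L hLLb
  replace hc := hc L hLLc
  replace hd := hd L hLLd
  have hCt0 : 0 ≤ Ct * C0 ^ 2 := by positivity
  have hexp5 : (31 : ℝ) ≤ Real.exp 5 := by
    have h6 := Real.exp_one_gt_d9
    have h7 : Real.exp 5 = Real.exp 1 ^ 5 := by rw [← Real.exp_nat_mul]; norm_num
    rw [h7]
    calc (31 : ℝ) ≤ 2 ^ 5 := by norm_num
      _ ≤ _ := pow_le_pow_left₀ (by norm_num) (by linarith) 5
  have hL28 : 28 * Real.exp 5 ≤ L := by linarith
  have hLCt : Ct * C0 ^ 2 ≤ L := by linarith [Real.exp_pos 5]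
  have hL800 : 800 ≤ L := by linarith
  have hLpos : 0 < L := by linarith
  have hL1' : 1 ≤ L := by linarith
  have hR := hF.R_one
  have hlogL0 : 0 ≤ Real.log L := Real.log_nonneg hL1'
  have hlogLL : Real.log L ≤ L / 2 := by
    have h1 := Real.add_one_le_exp (L / 2)
    have h2 : L ≤ Real.exp (L / 2) := by
      have h3 := Real.quadratic_le_exp_of_nonneg (show 0 ≤ L / 2 by linarith)
      nlinarith
    rwa [Real.log_le_iff_le_exp hLpos]
  have hlogL28 : Real.log 28 + 5 ≤ Real.log L := by
    have h1 := Real.log_le_log (by positivity) hL28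
    rwa [Real.log_mul (by norm_num) (Real.exp_pos _).ne', Real.log_exp] at h1
  have hq1 : (1 : ℝ) ≤ Real.exp (L / 4) := Real.one_le_exp (by linarith)
  have hsplit : Real.exp (3 / 4 * L) = Real.exp (1 / 2 * L) * Real.exp (L / 4) := by
    rw [← Real.exp_add]; congr 1; ring
  have hexp12 : (0 : ℝ) < Real.exp (1 / 2 * L) := Real.exp_pos _
  have hexp1234 : Real.exp (1 / 2 * L) ≤ Real.exp (3 / 4 * L) := Real.exp_le_exp.mpr (by linarith)
  have hL24 : L ^ 2 ≤ L ^ 4 := pow_le_pow_right₀ hL1' (by norm_num)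
  have hLsq : 1 ≤ L ^ 2 := one_le_pow₀ hL1'
  have hL8 : 0 < L ^ 8 := by positivity
  -- the range of `p'`
  have hv : ∀ p p' : ℝ, Real.exp (3 / 4 * L) ≤ p → p / (4 * (L + 6) * L) ≤ p' →
      1600 * (Ct * Cs) * C0 * L ^ 2 ≤ p' ∧ 100 * ((L + 10) * L) ≤ p' ∧ p ≤ 28 * L ^ 2 * p' := by
    intro p p' hp hp'
    have h0 : 0 < 4 * (L + 6) * L := by positivity
    have h1 : 4 * (L + 6) * L ≤ 28 * L ^ 2 := by nlinarith
    have hp'0 : 0 < p' := by
      refine lt_of_lt_of_le ?_ hp'
      have := Real.exp_pos (3 / 4 * L)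
      exact div_pos (by linarith) h0
    rw [div_le_iff₀ h0] at hp'
    have h2 : p ≤ 28 * L ^ 2 * p' := by
      calc p ≤ p' * (4 * (L + 6) * L) := hp'
        _ ≤ p' * (28 * L ^ 2) := mul_le_mul_of_nonneg_left h1 hp'0.le
        _ = _ := by ring
    have h3 : 0 < 28 * L ^ 2 := by positivity
    refine ⟨?_, ?_, h2⟩
    · have h4 : 28 * L ^ 2 * (1600 * (Ct * Cs) * C0 * L ^ 2) ≤ 28 * L ^ 2 * p' := by
        calc 28 * L ^ 2 * (1600 * (Ct * Cs) * C0 * L ^ 2) = 44800 * (Ct * Cs) * C0 * L ^ 4 := by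
              ring
          _ ≤ _ := hb
          _ ≤ _ := hexp1234
          _ ≤ p := hp
          _ ≤ _ := h2
      exact le_of_mul_le_mul_left h4 h3
    · have h4 : 28 * L ^ 2 * (100 * ((L + 10) * L)) ≤ 28 * L ^ 2 * p' := by
        calc 28 * L ^ 2 * (100 * ((L + 10) * L)) ≤ 28 * L ^ 2 * (100 * ((11 * L) * L)) := by
              apply mul_le_mul_of_nonneg_left _ h3.le
              apply mul_le_mul_of_nonneg_left _ (by norm_num)
              apply mul_le_mul_of_nonneg_right _ hLpos.le
              linarith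
          _ = 30800 * L ^ 4 := by ring
          _ ≤ _ := hd
          _ ≤ _ := hexp1234
          _ ≤ p := hp
          _ ≤ _ := h2
      exact le_of_mul_le_mul_left h4 h3
  intro n
  induction n with
  | zero =>
    intro y P hy hyn hP hPu hYp
    exfalso
    rw [pow_zero] at hyn
    have h1 : Real.log y ≤ 0 := Real.log_nonpos hy.le hyn
    have h2 : Real.exp (3 / 4 * L) ≤ Real.log P := by
      rwa [Real.le_log_iff_exp_le (lt_of_lt_of_le (Real.exp_pos _) hP)]
    have h3 := Real.exp_pos (3 / 4 * L)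
    linarith
  | succ n ih =>
    intro y P hy hyn hP hPu hYp
    have hP0 : 0 < P := lt_of_lt_of_le (Real.exp_pos _) hP
    have hp34 : Real.exp (3 / 4 * L) ≤ Real.log P := by rwa [Real.le_log_iff_exp_le hP0]
    set p := Real.log P with hp
    set Y := Real.log y with hY
    have hp0 : 0 < p := lt_of_lt_of_le (Real.exp_pos _) hp34
    have hY0 : 0 < Y := by linarith
    have hlogp : Real.log p ≤ L + 1 := by
      have h1 := Real.log_le_log hp0 hPu
      rw [Real.log_mul (by norm_num) (Real.exp_pos _).ne', Real.log_exp] at h1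
      linarith [Real.log_two_lt_d9]
    obtain ⟨hv1, hv2, _⟩ := hv p p hp34 (by
      apply div_le_self hp0.le
      nlinarith)
    have hCtCs : 1 ≤ Ct * Cs := one_le_mul_of_one_le_of_one_le hCt hCs
    have hpP : p ≤ P := by
      have h1 := Real.add_one_le_exp p
      rw [hp, Real.exp_log hP0] at h1
      linarith
    -- `R` is small against `p'`
    have hRp : ∀ p' : ℝ, 1600 * (Ct * Cs) * C0 * L ^ 2 ≤ p' →
        1600 * R ≤ p' ∧ Ct * R ≤ p' ∧ Cs * R ≤ p' := by
      intro p' h
      have h1 : 0 ≤ R := by linarith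
      have h2 : 1600 * (Ct * Cs) * R ≤ p' := by
        refine le_trans ?_ h
        calc 1600 * (Ct * Cs) * R ≤ 1600 * (Ct * Cs) * (C0 * L ^ 2) :=
              mul_le_mul_of_nonneg_left hRL (by positivity)
          _ = _ := by ring
      have h3 : 1 * R ≤ (Ct * Cs) * R := mul_le_mul_of_nonneg_right hCtCs h1
      have h4 : Ct * R * 1 ≤ Ct * R * Cs := mul_le_mul_of_nonneg_left hCs (by positivity)
      have h5 : Cs * R * 1 ≤ Cs * R * Ct := mul_le_mul_of_nonneg_left hCt (by positivity)
      have h6 : 0 ≤ Ct * Cs * R := by positivity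
      refine ⟨by linarith, by linarith, by linarith⟩
    rcases le_or_gt (L ^ 2 * p) Y with hsm | hsm
    · -- smooth case
      have h1 := hsmooth k R St hF y P hy (by have := (hRp p hv1).2.2; linarith)
      refine le_trans h1 ?_
      set u := Y / p with hu
      have hup : u * p = Y := by rw [hu]; field_simp
      have huL : L ^ 2 ≤ u := by rwa [hu, le_div_iff₀ hp0]
      have hu0 : 0 < u := by nlinarith
      set s := Real.sqrt u with hs
      have hss : s ^ 2 = u := Real.sq_sqrt hu0.le
      have hsL : L ≤ s := by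
        rw [hs]; exact Real.le_sqrt_of_sq_le huL
      have hs0 : 0 < s := by linarith
      have hlogu : Real.log u ≤ 2 * s := by
        rw [← hss, Real.log_pow]
        push_cast
        have := Real.log_le_sub_one_of_pos hs0
        linarith
      have hlogY : Real.log Y ≤ 2 * s + L + 1 := by
        rw [← hup, Real.log_mul hu0.ne' hp0.ne']
        linarith
      have h2 := Bd_lower hL1' hp34 hYp hlogY
      refine le_trans ?_ h2
      have hR2 : R ^ 2 ≤ C0 ^ 2 * L ^ 4 := by
        have h := pow_le_pow_left₀ (by linarith) hRL 2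
        calc R ^ 2 ≤ (C0 * L ^ 2) ^ 2 := h
          _ = _ := by ring
      have h3 : Cs * R ^ 2 ≤ Real.exp L := by
        calc Cs * R ^ 2 ≤ Cs * (C0 ^ 2 * L ^ 4) := mul_le_mul_of_nonneg_left hR2 (by linarith)
          _ = Cs * C0 ^ 2 * L ^ 4 := by ring
          _ ≤ Real.exp (1 * L) := hc
          _ = _ := by rw [one_mul]
      have h4 : p ≤ Real.exp (L + 1) := by
        rwa [← Real.log_le_iff_le_exp hp0]
      calc Cs * R ^ 2 * p * Real.exp (-u) ≤ Real.exp L * Real.exp (L + 1) * Real.exp (-u) := by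
            apply mul_le_mul_of_nonneg_right _ (Real.exp_pos _).le
            exact mul_le_mul h3 h4 hp0.le (Real.exp_pos _).le
        _ = Real.exp (2 * L + 1 - u) := by
            rw [← Real.exp_add, ← Real.exp_add]; congr 1; ring
        _ ≤ _ := by
            apply Real.exp_le_exp.mpr
            have h5 : L * s ≤ u := by rw [← hss]; nlinarith
            have h6 : L * L ≤ u := by nlinarith
            have h7 : 0 ≤ L * Real.log L := mul_nonneg hLpos.le hlogL0
            nlinarith
    · -- the step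
      set b := Bd L p Y with hb'
      have hb0 : 0 < b := Bd_pos _ _ _
      have hlogY : Real.log Y ≤ 2 * Real.log L + Real.log p := by
        have h1 := Real.log_le_log hY0 hsm.le
        rw [Real.log_mul (by positivity) hp0.ne', Real.log_pow] at h1
        push_cast at h1
        exact h1
      have hβ1 : b * Real.exp (-(L / 10)) ≤ b / (4 * L ^ 8) := by
        rw [Real.exp_neg, ← div_eq_mul_inv]
        apply div_le_div_of_nonneg_left hb0.le (by positivity)
        have : L / 10 = 1 / 10 * L := by ring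
        rw [this]; exact ha
      have hβ10 : b / (4 * L ^ 8) ≤ b * Real.exp (3 / 4 * L) / (4 * L ^ 8) := by
        apply div_le_div_of_nonneg_right _ (by positivity)
        have : (1 : ℝ) ≤ Real.exp (3 / 4 * L) := Real.one_le_exp (by linarith)
        nlinarith
      have hβ0 : b * Real.exp (L / 2) ≤ b * Real.exp (3 / 4 * L) / (4 * L ^ 8) := by
        rw [le_div_iff₀ (by positivity)]
        calc b * Real.exp (L / 2) * (4 * L ^ 8) ≤ b * Real.exp (L / 2) * Real.exp (1 / 10 * L) :=
              mul_le_mul_of_nonneg_left ha (by positivity)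
          _ = b * (Real.exp (L / 2) * Real.exp (1 / 10 * L)) := by ring
          _ ≤ b * Real.exp (3 / 4 * L) := by
              apply mul_le_mul_of_nonneg_left _ hb0.le
              rw [← Real.exp_add]
              apply Real.exp_le_exp.mpr
              linarith
      -- zero
      have hzero : ∀ y' P' : ℝ, 0 < y' → 0 < P' → p / (4 * (L + 6) * L) ≤ Real.log P' →
          Real.log y' < 99 / 100 * Real.log P' → Fn St y' P' = 0 := by
        intro y' P' hy' hP' hvp' hlt
        obtain ⟨w1, w2, w3⟩ := hv p _ hp34 hvp'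
        obtain ⟨r1, r2, r3⟩ := hRp _ w1
        have hpP' : Real.log P' ≤ P' := by
          have h1 := Real.add_one_le_exp (Real.log P')
          rw [Real.exp_log hP'] at h1
          linarith
        apply Fn_zero hF (by linarith)
        have h1 : Real.log (16 * R) ≤ 1 / 100 * Real.log P' := by
          have h2 := Real.log_le_sub_one_of_pos (show 0 < 16 * R by linarith)
          linarith
        have h2 : Real.log y' ≤ Real.log (P' / (16 * R)) := by
          rw [Real.log_div hP'.ne' (by positivity)]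
          linarith
        exact (Real.log_le_log_iff hy' (by positivity)).mp h2
      -- trivial bound below the range
      have hsmall : ∀ y' P' : ℝ, 0 < y' → 0 < P' → p / (4 * (L + 6) * L) ≤ Real.log P' →
          Real.log P' < Real.exp (3 / 4 * L) → Fn St y' P' ≤ b / (4 * L ^ 8) := by
        intro y' P' hy' hP' hvp' hlt
        obtain ⟨w1, w2, w3⟩ := hv p _ hp34 hvp'
        obtain ⟨r1, r2, r3⟩ := hRp _ w1
        have hpP' : Real.log P' ≤ P' := by
          have h1 := Real.add_one_le_exp (Real.log P')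
          rw [Real.exp_log hP'] at h1
          linarith
        refine le_trans (htriv k R St hF y' P' hy' (by linarith)) ?_
        have h1 : Ct * R ^ 2 ≤ L ^ 5 := by
          have hR2 : R ^ 2 ≤ C0 ^ 2 * L ^ 4 := by
            have h := pow_le_pow_left₀ (by linarith) hRL 2
            calc R ^ 2 ≤ (C0 * L ^ 2) ^ 2 := h
              _ = _ := by ring
          calc Ct * R ^ 2 ≤ Ct * (C0 ^ 2 * L ^ 4) := mul_le_mul_of_nonneg_left hR2 (by linarith)
            _ = (Ct * C0 ^ 2) * L ^ 4 := by ring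
            _ ≤ L * L ^ 4 := mul_le_mul_of_nonneg_right hLCt (by positivity)
            _ = L ^ 5 := by ring
        have h2 : p ≤ 28 * L ^ 2 * Real.exp (3 / 4 * L) :=
          le_trans w3 (mul_le_mul_of_nonneg_left hlt.le (by positivity))
        have h3 : Real.log p ≤ Real.log 28 + 2 * Real.log L + 3 / 4 * L := by
          have h4 := Real.log_le_log hp0 h2
          rw [Real.log_mul (by positivity) (Real.exp_pos _).ne', Real.log_exp,
            Real.log_mul (by norm_num) (by positivity), Real.log_pow] at h4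
          push_cast at h4
          exact h4
        have h5 := Bd_lower (t := Real.log 28 + 4 * Real.log L + 3 / 4 * L) hL1' hp34 hYp
          (by linarith)
        have h6 : Real.exp (5 * Real.log L + 5 / 4 * L) ≤ b := by
          refine le_trans ?_ h5
          apply Real.exp_le_exp.mpr
          have : L / 4 * 5 ≤ L / 4 * (5 * Real.log L + 3 / 4 * L -
              (Real.log 28 + 4 * Real.log L + 3 / 4 * L)) :=
            mul_le_mul_of_nonneg_left (by linarith) (by linarith)
          linarith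
        have h7 : Real.exp (5 * Real.log L + 5 / 4 * L) = L ^ 5 * Real.exp (5 / 4 * L) := by
          rw [Real.exp_add]
          congr 1
          rw [show (5 : ℝ) * Real.log L = ((5 : ℕ) : ℝ) * Real.log L by norm_num, Real.exp_nat_mul,
            Real.exp_log hLpos]
        rw [le_div_iff₀ (by positivity)]
        refine le_trans ?_ h6
        rw [h7]
        calc Ct * R ^ 2 * (4 * L ^ 8) ≤ L ^ 5 * (4 * L ^ 8) :=
              mul_le_mul_of_nonneg_right h1 (by positivity)
          _ ≤ L ^ 5 * Real.exp (5 / 4 * L) := by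
              apply mul_le_mul_of_nonneg_left _ (by positivity)
              refine le_trans ha (Real.exp_le_exp.mpr (by linarith))
      have hmain := hstep L hLL1 k R St hF hRL y P (b * Real.exp (3 / 4 * L) / (4 * L ^ 8))
        (b / (4 * L ^ 8)) hP hPu (by positivity) (by positivity) hy (by linarith)
        (by
          intro y' P' hy' hP' hyy hvp' hPP hp4 hlow
          obtain ⟨w1, w2, w3⟩ := hv p _ hp34 hvp'
          rcases lt_or_ge (Real.log y') (99 / 100 * Real.log P') with hz | hz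
          · rw [hzero y' P' hy' hP' hvp' hz]; positivity
          rcases lt_or_ge (Real.log P') (Real.exp (3 / 4 * L)) with hs | hs
          · exact le_trans (hsmall y' P' hy' hP' hvp' hs) hβ10
          · have hPe : Real.exp (Real.exp (3 / 4 * L)) ≤ P' := by
              rwa [← Real.le_log_iff_exp_le hP']
            have hp'0 : 0 < Real.log P' := lt_of_lt_of_le (Real.exp_pos _) hs
            have hpp : Real.log P' ≤ p := Real.log_le_log hP' hPP
            have h1 := ih y' P' hy' (by rw [pow_succ] at hyn; linarith) hPe (by linarith) hz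
            exact le_trans h1 (le_trans (Bd_E hLpos hp'0 hpp hYp hlow hz w2) hβ0))
        (by
          intro y' P' hy' hP' hyy hvp' hPP h5p hlow
          obtain ⟨w1, w2, w3⟩ := hv p _ hp34 hvp'
          rcases lt_or_ge (Real.log y') (99 / 100 * Real.log P') with hz | hz
          · rw [hzero y' P' hy' hP' hvp' hz]; positivity
          rcases lt_or_ge (Real.log P') (Real.exp (3 / 4 * L)) with hs | hs
          · exact hsmall y' P' hy' hP' hvp' hs
          · have hPe : Real.exp (Real.exp (3 / 4 * L)) ≤ P' := by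
              rwa [← Real.le_log_iff_exp_le hP']
            have hp'0 : 0 < Real.log P' := lt_of_lt_of_le (Real.exp_pos _) hs
            have hpp : Real.log P' ≤ p := Real.log_le_log hP' hPP
            have hU0 : 0 ≤ (L + 10) * L := by positivity
            have h1 := ih y' P' hy' (by rw [pow_succ] at hyn; linarith) hPe (by linarith) hz
            exact le_trans h1 (le_trans (Bd_H hLpos hp'0 h5p hYp hlow (by nlinarith) hU0) hβ1))
      refine le_trans hmain ?_
      have e1 : L ^ 8 * (Real.exp (-(3 / 4) * L) * (b * Real.exp (3 / 4 * L) / (4 * L ^ 8)) +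
          b / (4 * L ^ 8)) = b / 2 := by
        have h1 : Real.exp (-(3 / 4) * L) * Real.exp (3 / 4 * L) = 1 := by
          rw [← Real.exp_add, show -(3 / 4) * L + 3 / 4 * L = 0 by ring, Real.exp_zero]
        calc L ^ 8 * (Real.exp (-(3 / 4) * L) * (b * Real.exp (3 / 4 * L) / (4 * L ^ 8)) +
          b / (4 * L ^ 8)) = (Real.exp (-(3 / 4) * L) * Real.exp (3 / 4 * L) + 1) * (b / 4) := by
              field_simp
          _ = b / 2 := by rw [h1]; ring
      rw [e1]
      have e2 : Real.exp (-L * L) ≤ b / 2 := by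
        have h1 := Bd_lower (t := 2 * Real.log L + (L + 1)) hL1' hp34 hYp (by linarith)
        have h2 : Real.exp (-L * L) * 2 ≤ b := by
          refine le_trans ?_ h1
          have h3 : (2 : ℝ) ≤ Real.exp 1 := by linarith [Real.exp_one_gt_d9]
          calc Real.exp (-L * L) * 2 ≤ Real.exp (-L * L) * Real.exp 1 :=
                mul_le_mul_of_nonneg_left h3 (Real.exp_pos _).le
            _ = Real.exp (-L * L + 1) := by rw [← Real.exp_add]
            _ ≤ _ := by
                apply Real.exp_le_exp.mpr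
                have h7 : 0 ≤ L * Real.log L := mul_nonneg hLpos.le hlogL0
                nlinarith
        linarith
      linarith

/-- the bound at the top -/
theorem top (C0 : ℝ) (hC0 : 1 ≤ C0) : ∃ L0 : ℝ, 1 ≤ L0 ∧
    ∀ L : ℝ, L0 ≤ L → ∀ (k : ℕ) (R : ℝ) (St : ℕ → ℕ → Prop), Fam k R St →
    R ≤ C0 * L ^ 2 → ∀ x : ℝ, 0 < x → Real.log x = Real.exp L →
    Fn St x (2 * x) ≤ Real.exp (-(L ^ 2 / 40)) := by
  obtain ⟨L1, hL1, hpot⟩ := pot C0 hC0
  obtain ⟨La, hLa, ha⟩ := ev_polyd (1 / 2000) 1 (by norm_num) 1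
  refine ⟨max (max L1 La) 1000, le_trans hL1 (le_trans (le_max_left _ _) (le_max_left _ _)), ?_⟩
  intro L hL k R St hF hRL x hx hlx
  simp only [max_le_iff] at hL
  obtain ⟨⟨hLL1, hLLa⟩, hL1000⟩ := hL
  replace ha := ha L hLLa
  rw [one_mul, pow_one] at ha
  have hLpos : 0 < L := by linarith
  have hlogL : Real.log L ≤ L / 2000 := by
    rw [Real.log_le_iff_le_exp hLpos]
    have : L / 2000 = 1 / 2000 * L := by ring
    rw [this]; exact ha
  have hlogL0 : 0 ≤ Real.log L := Real.log_nonneg (by linarith)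
  have hlog2 := Real.log_two_gt_d9
  have hlog2' := Real.log_two_lt_d9
  have hlp : Real.log (2 * x) = Real.log 2 + Real.exp L := by
    rw [Real.log_mul (by norm_num) hx.ne', hlx]
  have hE : 1000 ≤ Real.exp L := by
    have := Real.add_one_le_exp L
    linarith
  have hE34 : Real.exp (3 / 4 * L) ≤ Real.exp L := Real.exp_le_exp.mpr (by linarith)
  obtain ⟨n, hn⟩ := pow_unbounded_of_one_lt x (show (1 : ℝ) < 2 by norm_num)
  have h := hpot L hLL1 k R St hF hRL n x (2 * x) hx hn.le (by
      rw [← Real.le_log_iff_exp_le (by positivity), hlp]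
      linarith) (by rw [hlp]; linarith) (by rw [hlp, hlx]; linarith)
  refine le_trans h ?_
  unfold Bd
  apply Real.exp_le_exp.mpr
  rw [hlx, hlp]
  have h1 : Real.log (Real.log 2 + Real.exp L) ≤ L + 1 := by
    have h2 : Real.log 2 + Real.exp L ≤ 2 * Real.exp L := by linarith
    have h3 := Real.log_le_log (by linarith) h2
    rw [Real.log_mul (by norm_num) (Real.exp_pos _).ne', Real.log_exp] at h3
    linarith
  have h2 : L - 3 ≤ Real.log (Real.exp L - 4 / 5 * (Real.log 2 + Real.exp L)) := by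
    rw [Real.le_log_iff_exp_le (by linarith)]
    have h3 : Real.exp (L - 3) = Real.exp L * Real.exp (-3) := by rw [← Real.exp_add]; ring_nf
    have h4 : Real.exp (-3) ≤ 1 / 10 := by
      rw [Real.exp_neg, inv_le_comm₀ (Real.exp_pos _) (by norm_num)]
      have h5 : Real.exp 3 = Real.exp 1 ^ 3 := by rw [← Real.exp_nat_mul]; norm_num
      rw [h5]
      have h6 := Real.exp_one_gt_d9
      have h7 : (2.7 : ℝ) ^ 3 ≤ Real.exp 1 ^ 3 := pow_le_pow_left₀ (by norm_num) (by linarith) 3
      norm_num at h7 ⊢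
      linarith
    rw [h3]
    have h5 : Real.exp L * Real.exp (-3) ≤ Real.exp L * (1 / 10) :=
      mul_le_mul_of_nonneg_left h4 (Real.exp_pos _).le
    linarith
  have h3 : L / 8 * (Real.log (Real.log 2 + Real.exp L) - 3 / 4 * L) ≤
      L / 8 * (L + 1 - 3 / 4 * L) := mul_le_mul_of_nonneg_left (by linarith) (by linarith)
  have h4 : L / 4 * (5 * Real.log L + 3 / 4 * L -
      Real.log (Real.exp L - 4 / 5 * (Real.log 2 + Real.exp L))) ≤
      L / 4 * (5 * (L / 2000) + 3 / 4 * L - (L - 3)) :=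
    mul_le_mul_of_nonneg_left (by linarith) (by linarith)
  have h5 : L ^ 2 / 40 = L * L / 40 := by ring
  rw [h5]
  nlinarith

end Pool.Agent.TH836.Leh
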